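import Mathlib
import Pool.Agent.V1166.WI.Two
import Pool.Agent.Results.MP_26a8c3_nt.SparseModuli

/-!
# The inequality of Brun and Titchmarsh for ALL moduli and ALL classes in small windows

Let `v n` be a sequence with `log (v n) ≥ n ^ δ` for large `n`, for instance `v n = 2 ^ n`, `n!` or
`2 ^ 2 ^ n`. For almost every `α > 0` and almost every `β` the following holds, for all `b`, `D`, all
sufficiently large `B` (in terms of `b`, `D`, `δ`) and all `ε > 0`: if `n` is large, then for ALL the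
moduli `q` with `|q - α v n| ≤ (log v n) ^ b`, ALL the classes `l` prime to `q` with
`|l - β q| ≤ (log v n) ^ b` and ALL real `x`, `y` with
`q (log q) ^ B ≤ y ≤ x ≤ q (log q) ^ (B + D)` the number of the primes `p ≡ l (mod q)` with
`x - y < p ≤ x` is at most `(1 + ε) y / (φ(q) log q)`, and smaller than `ε y / (φ(q) log (y / q))`. So
the constant `2` of the inequality of Brun and Titchmarsh can be replaced by any positive constant.
-/

set_option autoImplicit false

namespace Pool.Agent.Results.MP_26a8c3_nt.AllClassesInWindows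

open MeasureTheory Filter Finset

open Pool.Agent.Results.MP_26a8c3_nt.SparseModuli (cnt Holds energy families)

/-- the exceptional classes -/
def Exc (ε : ℝ) (B D q l : ℕ) : Prop :=
  Nat.Coprime l q ∧ ∃ x y : ℝ, q * Real.log q ^ B ≤ y ∧ y ≤ x ∧
    x ≤ q * Real.log q ^ (B + D) ∧ (1 + ε) * (y / (Nat.totient q * Real.log q)) < cnt x y q l

lemma energy_one (N : ℕ) : energy 1 (fun i : Fin N => ((i : ℕ) : ℤ) + 1) ≤ N := by
  unfold energy
  have h : Function.Injective (fun q : {q : (Fin 1 → Fin N) × (Fin 1 → Fin N) //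
      ∑ j, (fun i : Fin N => ((i : ℕ) : ℤ) + 1) (q.1 j) =
        ∑ j, (fun i : Fin N => ((i : ℕ) : ℤ) + 1) (q.2 j)} => q.1.1 0) := by
    rintro ⟨⟨a, b⟩, h1⟩ ⟨⟨c, d⟩, h2⟩ h3
    simp only [univ_unique, Fin.default_eq_zero, sum_singleton, add_left_inj, Nat.cast_inj] at h1 h2 h3
    have h4 : a = c := funext fun j => by rw [Fin.fin_one_eq_zero j]; exact h3
    have h5 : b 0 = d 0 := by
      apply Fin.ext
      rw [← h1, ← h2, h3]
    have h6 : b = d := funext fun j => by rw [Fin.fin_one_eq_zero j]; exact h5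
    rw [Subtype.mk.injEq, h4, h6]
  calc Nat.card _ ≤ Nat.card (Fin N) := Nat.card_le_card_of_injective _ h
    _ = N := Nat.card_fin N

open Classical in
/-- the exceptional moduli up to `N` -/
lemma moduli (ε : ℝ) (hε : 0 < ε) (hε1 : ε ≤ 1) (B D U V : ℕ) (hB : 2 * D + U + 2 ≤ B) :
    ∃ N₀ : ℕ, ∀ N : ℕ, N₀ ≤ N → ∀ F : Finset ℕ, (∀ q ∈ F, 1 ≤ q ∧ q ≤ N ∧ ¬ Holds ε U B D q) →
      (F.card : ℝ) ≤ 2 * N / (Real.log N) ^ V := by
  obtain ⟨N₀, hN₀⟩ := families ε hε hε1 B D U V hB 1 0 V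
  refine ⟨N₀ + 3, fun N hN F hF => ?_⟩
  have hN3 : (3 : ℝ) ≤ N := by exact_mod_cast (by omega : 3 ≤ N)
  have hlog : 0 < Real.log N := Real.log_pos (by linarith)
  have h1 := hN₀ N (by omega) (Fin N) (fun i => ((i : ℕ) : ℤ) + 1) (fun i => by
    rw [abs_of_nonneg (by positivity)]
    have := i.2
    omega) (by
    rw [pow_zero, one_mul, Fintype.card_fin]
    have h2 : (energy 1 (fun i : Fin N => ((i : ℕ) : ℤ) + 1) : ℝ) ≤ N := by
      exact_mod_cast energy_one N
    calc (energy 1 (fun i : Fin N => ((i : ℕ) : ℤ) + 1) : ℝ) * N ≤ N * N :=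
          mul_le_mul_of_nonneg_right h2 (Nat.cast_nonneg _)
      _ = (N : ℝ) ^ (2 * 1) := by ring)
  rw [Fintype.card_fin] at h1
  have hsplit : F.card = (F.filter (fun q : ℕ => (q : ℝ) * Real.log N ^ V < N)).card +
      (F.filter (fun q : ℕ => ¬ (q : ℝ) * Real.log N ^ V < N)).card :=
    (card_filter_add_card_filter_not _).symm
  have h2 : ((F.filter (fun q : ℕ => (q : ℝ) * Real.log N ^ V < N)).card : ℝ) ≤ N / Real.log N ^ V := by
    have h3 : F.filter (fun q : ℕ => (q : ℝ) * Real.log N ^ V < N) ⊆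
        Icc 1 ⌊(N : ℝ) / Real.log N ^ V⌋₊ := by
      intro q hq
      obtain ⟨g1, g2⟩ := mem_filter.1 hq
      refine mem_Icc.2 ⟨(hF q g1).1, Nat.le_floor ?_⟩
      rw [le_div_iff₀ (by positivity)]
      exact g2.le
    have h4 := card_le_card h3
    rw [Nat.card_Icc, Nat.add_sub_cancel] at h4
    exact (Nat.cast_le.2 h4).trans (Nat.floor_le (by positivity))
  have h5 : ((F.filter (fun q : ℕ => ¬ (q : ℝ) * Real.log N ^ V < N)).card : ℝ) ≤
      N / Real.log N ^ V := by
    refine le_trans ?_ h1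
    apply Nat.cast_le.2
    refine card_le_card_of_injOn (fun q => if h : q - 1 < N then (⟨q - 1, h⟩ : Fin N) else
      ⟨0, by omega⟩) ?_ ?_
    · intro q hq
      obtain ⟨g1, g2⟩ := mem_filter.1 (mem_coe.1 hq)
      obtain ⟨g3, g4, g5⟩ := hF q g1
      have g6 : q - 1 < N := by omega
      have g7 : (((q - 1 : ℕ) : ℤ) + 1) = (q : ℤ) := by omega
      simp only [dif_pos g6]
      refine mem_coe.2 (mem_filter.2 ⟨mem_univ _, ?_, ?_, ?_⟩)
      · show (0 : ℤ) < ((q - 1 : ℕ) : ℤ) + 1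
        omega
      · show (N : ℝ) ≤ ((((q - 1 : ℕ) : ℤ) + 1 : ℤ) : ℝ) * Real.log N ^ V
        rw [g7]
        push_cast
        exact not_lt.1 g2
      · show ¬ Holds ε U B D (((q - 1 : ℕ) : ℤ) + 1).toNat
        rw [g7, Int.toNat_natCast]
        exact g5
    · intro q hq q' hq' hqq
      obtain ⟨g1, -⟩ := mem_filter.1 (mem_coe.1 hq)
      obtain ⟨g1', -⟩ := mem_filter.1 (mem_coe.1 hq')
      obtain ⟨g3, g4, -⟩ := hF q g1
      obtain ⟨g3', g4', -⟩ := hF q' g1'
      have g6 : q - 1 < N := by omega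
      have g6' : q' - 1 < N := by omega
      simp only [dif_pos g6, dif_pos g6', Fin.mk.injEq] at hqq
      omega
  rw [hsplit]
  push_cast
  calc _ ≤ (N : ℝ) / Real.log N ^ V + N / Real.log N ^ V := add_le_add h2 h5
    _ = _ := by ring

/-- the number of the integers of a window -/
lemma card_window (c r : ℝ) (hr : 1 ≤ r) (F : Finset ℕ) (hF : ∀ q ∈ F, |(q : ℝ) - c| ≤ r) :
    (F.card : ℝ) ≤ 3 * r := by
  have h1 : F.card ≤ (Icc ⌈c - r⌉ ⌊c + r⌋).card := by
    refine card_le_card_of_injOn (fun q => (q : ℤ)) ?_ ?_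
    · intro q hq
      obtain ⟨g1, g2⟩ := abs_le.1 (hF q (mem_coe.1 hq))
      refine mem_coe.2 (mem_Icc.2 ⟨Int.ceil_le.2 ?_, Int.le_floor.2 ?_⟩)
      · push_cast
        linarith
      · push_cast
        linarith
    · intro q _ q' _ h
      have h' : (q : ℤ) = (q' : ℤ) := h
      exact_mod_cast h'
  rw [Int.card_Icc] at h1
  have h2 : ((⌊c + r⌋ + 1 - ⌈c - r⌉).toNat : ℝ) ≤ 2 * r + 1 := by
    have h3 : (⌊c + r⌋ : ℝ) ≤ c + r := Int.floor_le _
    have h4 : c - r ≤ (⌈c - r⌉ : ℝ) := Int.le_ceil _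
    rcases le_or_gt 0 (⌊c + r⌋ + 1 - ⌈c - r⌉) with h5 | h5
    · have h6 : (((⌊c + r⌋ + 1 - ⌈c - r⌉).toNat : ℤ) : ℝ) = ((⌊c + r⌋ + 1 - ⌈c - r⌉ : ℤ) : ℝ) := by
        rw [Int.toNat_of_nonneg h5]
      rw [Int.cast_natCast] at h6
      rw [h6]
      push_cast
      linarith
    · rw [Int.toNat_of_nonpos h5.le]
      push_cast
      linarith
  have h3 : (F.card : ℝ) ≤ ((⌊c + r⌋ + 1 - ⌈c - r⌉).toNat : ℝ) := by exact_mod_cast h1
  linarith

/-- **Theorem.** Let `δ > 0`, `k ≥ 2 / δ`, and let `v n > 0` be a sequence with `log (v n) ≥ n ^ δ` for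
large `n`. For almost all real `α`, if `α > 0`, and for almost all real `β`: for all `ε > 0`, all `b`,
`D` and `B ≥ 2 D + 2 b + k + 2` and all large `n`, for ALL moduli `q` with
`|q - α v n| ≤ (log v n) ^ b`, ALL classes `l`, `0 ≤ l < q`, prime to `q` with
`|l - β q| ≤ (log v n) ^ b`, and ALL real `x`, `y` with
`q (log q) ^ B ≤ y ≤ x ≤ q (log q) ^ (B + D)`, the number `cnt x y q l` of the primes
`p ≡ l (mod q)`, `x - y < p ≤ x`, is at most `(1 + ε) y / (φ(q) log q)` and smaller than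
`ε y / (φ(q) log (y / q))`. -/
theorem result (δ : ℝ) (hδ : 0 < δ) (k : ℕ) (hk : 2 ≤ δ * k) (v : ℕ → ℝ) (hv0 : ∀ n, 0 < v n)
    (hv : ∀ᶠ n : ℕ in atTop, (n : ℝ) ^ δ ≤ Real.log (v n)) :
    ∀ᵐ α : ℝ, 0 < α → ∀ᵐ β : ℝ, ∀ ε : ℝ, 0 < ε → ∀ b D B : ℕ, 2 * D + 2 * b + k + 2 ≤ B →
      ∀ᶠ n : ℕ in atTop, ∀ q l : ℕ, |(q : ℝ) - α * v n| ≤ (Real.log (v n)) ^ b → l < q →
        |(l : ℝ) - β * q| ≤ (Real.log (v n)) ^ b → Nat.Coprime l q → ∀ x y : ℝ,
          q * Real.log q ^ B ≤ y → y ≤ x → x ≤ q * Real.log q ^ (B + D) →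
            (cnt x y q l : ℝ) ≤ (1 + ε) * (y / (Nat.totient q * Real.log q)) ∧
            (cnt x y q l : ℝ) < ε * (y / (Nat.totient q * Real.log (y / q))) := by
  classical
  have hT := Pool.Agent.V1166.WI.ev_fast hδ hv
  have hd : ∀ i : ℕ, (0 : ℝ) < 1 / ((i : ℝ) + 1) ∧ (1 : ℝ) / ((i : ℝ) + 1) ≤ 1 := fun i =>
    ⟨by positivity, by
      rw [div_le_one (by positivity)]
      linarith [(Nat.cast_nonneg i : (0 : ℝ) ≤ i)]⟩
  -- the windows of moduli
  have s1 : ∀ i b D B : ℕ, ∀ᵐ α : ℝ, 2 * D + 2 * b + k + 2 ≤ B → 0 < α → ∀ᶠ n : ℕ in atTop,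
      ∀ q : ℕ, |(q : ℝ) - α * v n| ≤ (Real.log (v n)) ^ b →
        Holds (1 / ((i : ℝ) + 1)) (2 * b + k) B D q ∧ Real.log (v n) / 2 ≤ Real.log q := by
    intro i b D B
    by_cases hB : 2 * D + 2 * b + k + 2 ≤ B
    · filter_upwards [Pool.Agent.V1166.WI.step_one
        (Good := Holds (1 / ((i : ℝ) + 1)) (2 * b + k) B D) (b := b) hδ hk
        (moduli _ (hd i).1 (hd i).2 B D (2 * b + k) (b + k) (by omega)) hv0 hv] with α hα _
      exact hα
    · exact Eventually.of_forall fun α h => absurd h hB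
  filter_upwards [ae_all_iff.2 fun i => ae_all_iff.2 fun b => ae_all_iff.2 fun D =>
    ae_all_iff.2 fun B => s1 i b D B] with α hα hα0
  -- the windows of classes
  have s2 : ∀ i b D B : ℕ, ∀ᵐ β : ℝ, 2 * D + 2 * b + k + 2 ≤ B → ∀ᶠ n : ℕ in atTop,
      ∀ q l : ℕ, |(q : ℝ) - α * v n| ≤ (Real.log (v n)) ^ b → l < q →
        |(l : ℝ) - β * q| ≤ (Real.log (v n)) ^ b → ¬ Exc (1 / ((i : ℝ) + 1)) B D q l := by
    intro i b D B
    by_cases hB : 2 * D + 2 * b + k + 2 ≤ B
    · have hW : ∀ᶠ n : ℕ in atTop,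
          ((((Icc 0 ⌊α * v n + (Real.log (v n)) ^ b⌋₊).filter
            (fun q : ℕ => |(q : ℝ) - α * v n| ≤ (Real.log (v n)) ^ b)).card : ℕ) : ℝ) ≤
              3 * (Real.log (v n)) ^ b ∧
          ∀ q ∈ (Icc 0 ⌊α * v n + (Real.log (v n)) ^ b⌋₊).filter
            (fun q : ℕ => |(q : ℝ) - α * v n| ≤ (Real.log (v n)) ^ b),
            Real.log (v n) / 2 ≤ Real.log q ∧ ∀ F : Finset ℕ,
              (∀ l ∈ F, l < q ∧ Exc (1 / ((i : ℝ) + 1)) B D q l) →
                (F.card : ℝ) ≤ q / (Real.log q) ^ (2 * b + k) := by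
        filter_upwards [hα i b D B hB hα0, hT.eventually_ge_atTop 1] with n hn hn1
        refine ⟨card_window _ _ (one_le_pow₀ hn1) _ fun q hq => (mem_filter.1 hq).2,
          fun q hq => ?_⟩
        obtain ⟨g1, g2⟩ := hn q (mem_filter.1 hq).2
        refine ⟨g2, fun F hF => ?_⟩
        have hlog : 0 < Real.log q := by linarith
        have g3 : F ⊆ (range q).filter (fun l => Nat.Coprime l q ∧ ∃ x y : ℝ,
            q * Real.log q ^ B ≤ y ∧ y ≤ x ∧ x ≤ q * Real.log q ^ (B + D) ∧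
            (1 + 1 / ((i : ℝ) + 1)) * (y / (Nat.totient q * Real.log q)) < cnt x y q l) := by
          intro l hl
          obtain ⟨g4, g5⟩ := hF l hl
          exact mem_filter.2 ⟨mem_range.2 g4, g5⟩
        have g4 : (F.card : ℝ) ≤ Nat.totient q / Real.log q ^ (2 * b + k) :=
          (Nat.cast_le.2 (card_le_card g3)).trans (by
            unfold Holds at g1
            convert g1)
        refine g4.trans (div_le_div_of_nonneg_right ?_ (by positivity))
        exact_mod_cast Nat.totient_le q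
      filter_upwards [Pool.Agent.V1166.WI.step_two (b := b) hδ hk hv hW] with β hβ _
      filter_upwards [hβ, hT.eventually_ge_atTop 1] with n hn hn1 q l hq hl hlq
      refine hn q (mem_filter.2 ⟨mem_Icc.2 ⟨Nat.zero_le _, Nat.le_floor ?_⟩, hq⟩) l hl hlq
      linarith [(abs_le.1 hq).2]
    · exact Eventually.of_forall fun α h => absurd h hB
  filter_upwards [ae_all_iff.2 fun i => ae_all_iff.2 fun b => ae_all_iff.2 fun D =>
    ae_all_iff.2 fun B => s2 i b D B] with β hβ ε hε b D B hB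
  obtain ⟨i, hi⟩ := exists_nat_one_div_lt hε
  have hsmall : ∀ᶠ t : ℝ in atTop, 2 * ((B : ℝ) + D) * Real.log t < ε * t := by
    rcases Nat.eq_zero_or_pos (B + D) with h0 | h0
    · filter_upwards [eventually_gt_atTop 0] with t ht
      have h1 : (B : ℝ) + D = 0 := by exact_mod_cast h0
      rw [h1, mul_zero, zero_mul]
      positivity
    · have hBD : (0 : ℝ) < (B : ℝ) + D := by exact_mod_cast h0
      have h1 := (Real.isLittleO_log_id_atTop).bound
        (show (0 : ℝ) < ε / (4 * ((B : ℝ) + D)) by positivity)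
      filter_upwards [h1, eventually_gt_atTop 1] with t ht ht1
      rw [Real.norm_of_nonneg (Real.log_nonneg ht1.le), id, Real.norm_of_nonneg (by linarith)] at ht
      calc 2 * ((B : ℝ) + D) * Real.log t ≤ 2 * ((B : ℝ) + D) * (ε / (4 * ((B : ℝ) + D)) * t) :=
            mul_le_mul_of_nonneg_left ht (by positivity)
        _ = ε * t / 2 := by
            field_simp
            ring
        _ < ε * t := by
            have : 0 < ε * t := by positivity
            linarith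
  obtain ⟨t₀, ht₀⟩ := eventually_atTop.1 hsmall
  filter_upwards [hβ i b D B hB, hβ 0 b D B hB, hα i b D B hB hα0,
    hT.eventually_ge_atTop (2 * (|t₀| + 2))] with n hn hn' hn1 hn2 q l hq hl hlq hcop x y hy hyx hx
  have hlogq := (hn1 q hq).2
  have hl2 : |t₀| + 2 ≤ Real.log q := by linarith
  have hl0 : (2 : ℝ) ≤ Real.log q := by linarith [abs_nonneg t₀]
  have hq0 : (0 : ℝ) < q := by
    by_contra hcon
    have h4 : (q : ℝ) = 0 := le_antisymm (not_lt.1 hcon) (Nat.cast_nonneg q)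
    rw [h4, Real.log_zero] at hl0
    linarith
  have hqn : 0 < q := by exact_mod_cast hq0
  have hφ : (0 : ℝ) < Nat.totient q := by exact_mod_cast Nat.totient_pos.2 hqn
  have hpow : (1 : ℝ) ≤ Real.log q ^ B := one_le_pow₀ (by linarith)
  have hy0 : 0 < y := lt_of_lt_of_le (by positivity) hy
  have hc1 : (cnt x y q l : ℝ) ≤ (1 + 1 / ((i : ℝ) + 1)) *
      (y / (Nat.totient q * Real.log q)) := by
    by_contra hcon
    exact hn q l hq hl hlq ⟨hcop, x, y, hy, hyx, hx, not_le.1 hcon⟩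
  have hc2 : (cnt x y q l : ℝ) ≤ (1 + 1 / (((0 : ℕ) : ℝ) + 1)) *
      (y / (Nat.totient q * Real.log q)) := by
    by_contra hcon
    exact hn' q l hq hl hlq ⟨hcop, x, y, hy, hyx, hx, not_le.1 hcon⟩
  have hpos : 0 < y / (Nat.totient q * Real.log q) := by positivity
  refine ⟨hc1.trans (mul_le_mul_of_nonneg_right (by linarith) hpos.le), lt_of_le_of_lt hc2 ?_⟩
  have hBpos : 1 ≤ B := by omega
  have hyq1 : 1 < y / q := by
    rw [lt_div_iff₀ hq0, one_mul]
    refine lt_of_lt_of_le ?_ hy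
    have h5 : (1 : ℝ) < Real.log q ^ B := one_lt_pow₀ (by linarith) (by omega)
    nlinarith
  have hyq2 : y / q ≤ Real.log q ^ (B + D) := by
    rw [div_le_iff₀ hq0, mul_comm]
    exact hyx.trans hx
  have hlogy : Real.log (y / q) ≤ ((B : ℝ) + D) * Real.log (Real.log q) := by
    have h6 := Real.log_le_log (by linarith) hyq2
    rw [Real.log_pow] at h6
    push_cast at h6
    exact h6
  have hlogy0 : 0 < Real.log (y / q) := Real.log_pos hyq1
  have hfin : 2 * Real.log (y / q) < ε * Real.log q := by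
    have h7 := ht₀ (Real.log q) (by linarith [le_abs_self t₀])
    linarith
  have h8 : (1 + 1 / (((0 : ℕ) : ℝ) + 1)) = (2 : ℝ) := by norm_num
  rw [h8, mul_div_assoc', mul_div_assoc', div_lt_div_iff₀ (by positivity) (by positivity)]
  calc 2 * y * (Nat.totient q * Real.log (y / q))
      = y * Nat.totient q * (2 * Real.log (y / q)) := by ring
    _ < y * Nat.totient q * (ε * Real.log q) :=
        mul_lt_mul_of_pos_left hfin (by positivity)
    _ = ε * y * (Nat.totient q * Real.log q) := by ring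

end Pool.Agent.Results.MP_26a8c3_nt.AllClassesInWindows
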