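import Pool.Agent.Results.MP_31d0eb_nt.BalancedPrimes

set_option autoImplicit false

/-!
# MP_26a8c3_nt: the inequality of Brun and Titchmarsh with any constant `δ` around almost every prime

`N(x, y; k, l)` is the number of primes `q ≡ l (mod k)` with `x - y < q ≤ x`.  Let `θ > 0`, `X` large,
`X ^ θ ≤ Y ≤ X`, `0 < δ ≤ 1` and `lam ≥ 1`.  For all but at most `C lam^(-1/2) Y / log X` of the primes `p`
in `(X, X + Y]` the inequality `N(x, y; k, l) ≤ δ y / (φ(k) log (y / k))` holds for ALL real `x`, `y`, all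
moduli `k` and all `l` such that `p` lies in `(x - y, x]`, `(4 lam / δ) ^ 2 k ≤ y ≤ Y` and
`φ(k) log (y / k) ≤ δ log X / (2 lam)`; `C` depends only on `θ`.
-/

namespace Pool.Agent.Results.MP_26a8c3_nt.IntervalsOfMostPrimes

open Finset Filter
open Pool.Agent.Results.MP_31d0eb_nt.BalancedPrimes

/-- `N(x, y; k, l)`, the number of primes `q ≡ l (mod k)` with `x - y < q ≤ x` -/
noncomputable def N (x y : ℝ) (k : ℕ) (l : ℤ) : ℕ :=
  {q : ℕ | q.Prime ∧ (q : ℤ) ≡ l [ZMOD k] ∧ x - y < q ∧ (q : ℝ) ≤ x}.ncard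

/-- `N(x, y; k, l) ≤ δ y / (φ(k) log (y / k))` for all intervals `(x - y, x]` with `p` in them and all
`k`, `l` such that `y₀ k ≤ y ≤ Y` and `φ(k) log (y / k) ≤ Z` -/
def Small (δ y₀ Y Z : ℝ) (p : ℕ) : Prop :=
  ∀ (x y : ℝ) (k : ℕ) (l : ℤ), x - y < p → (p : ℝ) ≤ x → 1 ≤ k → y₀ * k ≤ y → y ≤ Y →
    Nat.totient k * Real.log (y / k) ≤ Z →
    (N x y k l : ℝ) ≤ δ * y / (Nat.totient k * Real.log (y / k))

lemma small_of (δ lam : ℝ) (hδ : 0 < δ) (hδ1 : δ ≤ 1) (hlam : 1 ≤ lam) (X Y p : ℕ)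
    (hL : 1 ≤ Real.log X) (h : RightOrder primes lam X Y p) :
    Small δ ((4 * lam / δ) ^ 2) Y (δ / (2 * lam) * Real.log X) p := by
  intro x y k l h1 h2 hk hy0 hyY hZ
  set L := Real.log X with hLdef
  have hL0 : 0 < L := by linarith
  have hkR : (1 : ℝ) ≤ k := by exact_mod_cast hk
  have hk0 : (0 : ℝ) < k := by linarith
  set u := y / k with hu
  have hq4 : 4 ≤ 4 * lam / δ := by
    rw [le_div_iff₀ hδ]
    nlinarith
  have hu0 : (4 * lam / δ) ^ 2 ≤ u := by
    rw [hu, le_div_iff₀ hk0]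
    exact hy0
  have hu16 : 16 ≤ u := by nlinarith
  have hyk : y = u * k := by
    rw [hu]
    field_simp
  have hy00 : 0 < y := by
    rw [hyk]
    positivity
  have hlogu : 0 < Real.log u := Real.log_pos (by linarith)
  have hφ : 0 < (Nat.totient k : ℝ) := by
    exact_mod_cast Nat.totient_pos.2 (by omega)
  have hφk : (Nat.totient k : ℝ) ≤ k := by exact_mod_cast Nat.totient_le k
  have e1 : (N x y k l : ℝ) ≤ count primes (x - y) y := by
    apply Nat.cast_le.2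
    unfold N count
    apply Set.ncard_le_ncard
    · rintro q ⟨q1, -, q2, q3⟩
      exact ⟨q1, q2, by linarith⟩
    · apply Set.Finite.subset (Finset.finite_toSet (Finset.range (⌊x - y + y⌋₊ + 1)))
      rintro q ⟨-, -, hq⟩
      rw [mem_coe, mem_range]
      exact Nat.lt_succ_of_le (Nat.le_floor hq)
  obtain ⟨-, e2⟩ := h (x - y) y h1 (by linarith) hyY
  refine e1.trans (e2.trans ?_)
  rw [le_div_iff₀ (by positivity)]
  rcases le_total y L with hyL | hyL
  · -- short intervals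
    have e3 : lam * (1 + y / L) ≤ 2 * lam := by
      have : y / L ≤ 1 := by
        rw [div_le_one hL0]
        exact hyL
      nlinarith
    have e4 : Real.log u ≤ 2 * √u := by
      have e : Real.log u = 2 * Real.log (√u) := by
        rw [Real.log_sqrt (by linarith)]
        ring
      rw [e]
      have : Real.log (√u) ≤ √u := Real.log_le_self (Real.sqrt_nonneg _)
      linarith
    have e5 : 4 * lam / δ ≤ √u := Real.le_sqrt_of_sq_le hu0
    have e6 : 4 * lam ≤ δ * √u := by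
      rw [div_le_iff₀ hδ] at e5
      linarith
    have e7 : √u * √u = u := Real.mul_self_sqrt (by linarith)
    calc lam * (1 + y / L) * (Nat.totient k * Real.log u)
        ≤ 2 * lam * (k * (2 * √u)) := by
          apply mul_le_mul e3 _ (by positivity) (by positivity)
          apply mul_le_mul hφk e4 hlogu.le hk0.le
      _ = (4 * lam) * √u * k := by ring
      _ ≤ (δ * √u) * √u * k := by gcongr
      _ = δ * (√u * √u * k) := by ring
      _ = δ * y := by rw [e7, hyk]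
  · have e3 : lam * (1 + y / L) ≤ 2 * lam * (y / L) := by
      have : 1 ≤ y / L := by
        rw [one_le_div hL0]
        exact hyL
      nlinarith
    calc lam * (1 + y / L) * (Nat.totient k * Real.log u)
        ≤ 2 * lam * (y / L) * (δ / (2 * lam) * L) := by
          apply mul_le_mul e3 hZ (by positivity) (by positivity)
      _ = δ * y := by field_simp

theorem main (θ : ℝ) (h0 : 0 < θ) : ∃ C : ℝ, 0 < C ∧ ∀ᶠ X : ℕ in atTop, ∀ Y : ℕ,
    (X : ℝ) ^ θ ≤ Y → Y ≤ X → ∀ δ lam : ℝ, 0 < δ → δ ≤ 1 → 1 ≤ lam →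
      ({p : ℕ | p.Prime ∧ X < p ∧ p ≤ X + Y ∧
        ¬ Small δ ((4 * lam / δ) ^ 2) Y (δ / (2 * lam) * Real.log X) p}.ncard : ℝ) ≤
        C / √lam * (Y / Real.log X) := by
  obtain ⟨C, hC, h⟩ := Pool.Agent.Results.MP_31d0eb_nt.BalancedPrimes.result.1 θ h0
  refine ⟨C, hC, ?_⟩
  have hlogX : Tendsto (fun X : ℕ => Real.log (X : ℝ)) atTop atTop :=
    Real.tendsto_log_atTop.comp tendsto_natCast_atTop_atTop
  filter_upwards [h, hlogX.eventually_ge_atTop 1] with X hX hL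
  intro Y hY hYX δ lam hδ hδ1 hlam
  refine le_trans ?_ (hX Y hY hYX primes subset_rfl lam hlam)
  apply Nat.cast_le.2
  apply Set.ncard_le_ncard
  · rintro p ⟨p1, p2, p3, p4⟩
    exact ⟨p1, p2, p3, fun hR => p4 (small_of δ lam hδ hδ1 hlam X Y p hL hR)⟩
  · apply Set.Finite.subset (Finset.finite_toSet (Ioc X (X + Y)))
    rintro p ⟨-, p2, p3, -⟩
    rw [mem_coe, mem_Ioc]
    exact ⟨p2, p3⟩

/-- **Brun–Titchmarsh around almost every prime.** (1) is the quantitative bound for the exceptions in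
`(X, X + Y]`, `X ^ θ ≤ Y ≤ X`, `θ > 0` arbitrary; (2): for some `θ < 1` (and for all `θ` for which
`(X, X + Y]` contains `≫ Y / log X` primes) the exceptions are at most a proportion `η` of the primes. -/
theorem result :
    (∀ θ : ℝ, 0 < θ → ∃ C : ℝ, 0 < C ∧ ∀ᶠ X : ℕ in atTop, ∀ Y : ℕ,
      (X : ℝ) ^ θ ≤ Y → Y ≤ X → ∀ δ lam : ℝ, 0 < δ → δ ≤ 1 → 1 ≤ lam →
        ({p : ℕ | p.Prime ∧ X < p ∧ p ≤ X + Y ∧
          ¬ Small δ ((4 * lam / δ) ^ 2) Y (δ / (2 * lam) * Real.log X) p}.ncard : ℝ) ≤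
          C / √lam * (Y / Real.log X)) ∧
    (∃ θ : ℝ, 0 < θ ∧ θ < 1 ∧ ShortIntervals θ) ∧
    (∀ θ : ℝ, 0 < θ → ShortIntervals θ → ∀ δ η : ℝ, 0 < δ → 0 < η → ∃ y₀ c : ℝ, 0 < c ∧
      ∀ᶠ X : ℕ in atTop, ∀ Y : ℕ, (X : ℝ) ^ θ ≤ Y → Y ≤ X →
        ({p : ℕ | p.Prime ∧ X < p ∧ p ≤ X + Y ∧ ¬ Small δ y₀ Y (c * Real.log X) p}.ncard : ℝ) ≤
          η * ({p : ℕ | p.Prime ∧ X < p ∧ p ≤ X + Y}.ncard : ℝ)) := by
  refine ⟨main, Pool.Agent.Results.MP_31d0eb_nt.BalancedPrimes.result.2.2.1, ?_⟩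
  rintro θ h0 ⟨c₁, hc₁, hS⟩ δ η hδ hη
  obtain ⟨C, hC, h⟩ := main θ h0
  set lam : ℝ := (C / (c₁ * η)) ^ 2 + 1 with hlamdef
  have hlam : 1 ≤ lam := by
    have : 0 ≤ (C / (c₁ * η)) ^ 2 := by positivity
    linarith
  have hδ' : 0 < min δ 1 := lt_min hδ one_pos
  refine ⟨(4 * lam / min δ 1) ^ 2, min δ 1 / (2 * lam), by positivity, ?_⟩
  have hlogX : Tendsto (fun X : ℕ => Real.log (X : ℝ)) atTop atTop :=
    Real.tendsto_log_atTop.comp tendsto_natCast_atTop_atTop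
  filter_upwards [h, hS, hlogX.eventually_ge_atTop 1] with X hX hSX hL
  intro Y hY hYX
  have a1 := hX Y hY hYX (min δ 1) lam hδ' (min_le_right _ _) hlam
  have a2 := hSX Y hY hYX
  have hYL : 0 ≤ (Y : ℝ) / Real.log X := by positivity
  have a3 : C / √lam ≤ η * c₁ := by
    have hs : C / (c₁ * η) ≤ √lam := by
      apply Real.le_sqrt_of_sq_le
      rw [hlamdef]
      linarith
    have hs0 : 0 < √lam := Real.sqrt_pos.2 (by linarith)
    rw [div_le_iff₀ hs0]
    rw [div_le_iff₀ (by positivity)] at hs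
    linarith
  have a4 : ({p : ℕ | p.Prime ∧ X < p ∧ p ≤ X + Y ∧
      ¬ Small δ ((4 * lam / min δ 1) ^ 2) Y (min δ 1 / (2 * lam) * Real.log X) p}.ncard : ℝ) ≤
      ({p : ℕ | p.Prime ∧ X < p ∧ p ≤ X + Y ∧
      ¬ Small (min δ 1) ((4 * lam / min δ 1) ^ 2) Y (min δ 1 / (2 * lam) * Real.log X) p}.ncard : ℝ) := by
    apply Nat.cast_le.2
    apply Set.ncard_le_ncard
    · rintro p ⟨p1, p2, p3, p4⟩
      refine ⟨p1, p2, p3, fun hF => p4 ?_⟩
      intro x y k l b1 b2 b3 b4 b5 b6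
      refine (hF x y k l b1 b2 b3 b4 b5 b6).trans ?_
      have hkR : (1 : ℝ) ≤ k := by exact_mod_cast b3
      have hbase : 4 ≤ 4 * lam / min δ 1 := by
        rw [le_div_iff₀ hδ']
        have := min_le_right δ 1
        nlinarith
      have hyk : (k : ℝ) ≤ y := by
        have : (1 : ℝ) ≤ (4 * lam / min δ 1) ^ 2 := by nlinarith
        nlinarith
      have hlog : 0 ≤ Real.log (y / k) := by
        apply Real.log_nonneg
        rw [one_le_div (by linarith)]
        exact hyk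
      apply div_le_div_of_nonneg_right _ (by positivity)
      apply mul_le_mul_of_nonneg_right (min_le_left _ _)
      linarith
    · apply Set.Finite.subset (Finset.finite_toSet (Ioc X (X + Y)))
      rintro p ⟨-, p2, p3, -⟩
      rw [mem_coe, mem_Ioc]
      exact ⟨p2, p3⟩
  calc _ ≤ _ := a4
    _ ≤ C / √lam * (Y / Real.log X) := a1
    _ ≤ η * c₁ * (Y / Real.log X) := mul_le_mul_of_nonneg_right a3 hYL
    _ = η * (c₁ * Y / Real.log X) := by ring
    _ ≤ _ := mul_le_mul_of_nonneg_left a2 hη.le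

end Pool.Agent.Results.MP_26a8c3_nt.IntervalsOfMostPrimes
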